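import Pool.Agent.Lib_helper30.AA.Blocks
import Pool.Agent.Lib_helper30.AA.Markov

/-!
# Quasi-polynomial Aaronson-Ambainis: definitions
`I` finite index type, cube `I → Bool`, sign `sg false = 1`, `sg true = -1`.
-/

set_option autoImplicit false

open Finset Polynomial

namespace Pool.Agent.Lib_helper90.QPc.H8

open Pool.Agent.Lib_helper30.AA

variable {I : Type} [Fintype I] [DecidableEq I]

/-- Sign of a bit. -/
noncomputable def sg (b : Bool) : ℝ := (-1 : ℝ) ^ b.toNat

/-- Uniform average over the cube. -/
noncomputable def av (g : (I → Bool) → ℝ) : ℝ :=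
  ((2 : ℝ) ^ (Fintype.card I))⁻¹ * ∑ x : I → Bool, g x

/-- Expectation under the signed product measure with means `b i` (`= g̃(b)`). -/
noncomputable def ev (b : I → ℝ) (g : (I → Bool) → ℝ) : ℝ :=
  av fun x => g x * ∏ i, (1 + b i * sg (x i))

/-- The discrete derivative, so that `f x = (even part) + sg (x j) * D j f x`. -/
noncomputable def D (j : I) (f : (I → Bool) → ℝ) (x : I → Bool) : ℝ :=
  (f (Function.update x j false) - f (Function.update x j true)) / 2

/-- Fourier degree at most `d`. -/
def LowDeg (d : ℕ) (g : (I → Bool) → ℝ) : Prop := ∀ S : Finset I, d < S.card → coef g S = 0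

/-- The influence `m_j = E |D_j f|^2`. -/
noncomputable def inf (f : (I → Bool) → ℝ) (j : I) : ℝ := av fun x => D j f x ^ 2

/-- `v_{ij} = E [x_i |D_j f|^2]`. -/
noncomputable def vv (f : (I → Bool) → ℝ) (i j : I) : ℝ := av fun x => sg (x i) * D j f x ^ 2

/-- Restriction: the coordinates in `R` are fixed according to `z`. -/
def res (R : Finset I) (z : I → Bool) (f : (I → Bool) → ℝ) (x : I → Bool) : ℝ :=
  f fun i => if i ∈ R then z i else x i

end Pool.Agent.Lib_helper90.QPc.H8
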