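import Pool.Agent.Lib_helper90.QPc.EvBasic

/-!
# Quasi-polynomial Aaronson-Ambainis, block T2 (helper96):
`ev_growth`, `sum_abs_D_le`, `jensen`, `superlight`
-/

set_option autoImplicit false

open Finset Polynomial

namespace Pool.Agent.Lib_helper90.QPc.H96

open Pool.Agent.Lib_helper30.AA Pool.Agent.Lib_helper90.QPc.H8
-- (lemmas from Basic, EvBasic)


variable {I : Type} [Fintype I] [DecidableEq I]

theorem abs_ev_le_one {g : (I → Bool) → ℝ} (h1 : ∀ x, |g x| ≤ 1) {b : I → ℝ}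
    (hb : ∀ i, |b i| ≤ 1) : |ev b g| ≤ 1 := by
  rw [abs_le]
  constructor
  · have := ev_mono (g := fun _ => (-1 : ℝ)) (h := g) hb (fun x => (abs_le.1 (h1 x)).1)
    rwa [ev_const] at this
  · have := ev_mono (g := g) (h := fun _ => (1 : ℝ)) hb (fun x => (abs_le.1 (h1 x)).2)
    rwa [ev_const] at this

theorem eval_T_le (n : ℕ) {t : ℝ} (ht : 1 ≤ t) :
    0 ≤ (Chebyshev.T ℝ n).eval t ∧ (Chebyshev.T ℝ n).eval t ≤ (2 * t) ^ n := by
  have h0 : ∀ m : ℕ, 1 ≤ (Chebyshev.T ℝ m).eval t := by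
    intro m
    exact Chebyshev.one_le_eval_T_real m ht
  refine ⟨zero_le_one.trans (h0 n), ?_⟩
  induction' n using Nat.strong_induction_on with n ih
  match n with
  | 0 => simp
  | 1 => simp; linarith
  | (k + 2) =>
    have e := Chebyshev.T_add_two ℝ (k : ℤ)
    have e' : (Chebyshev.T ℝ ((k + 2 : ℕ) : ℤ)) = 2 * X * Chebyshev.T ℝ ((k + 1 : ℕ) : ℤ) - Chebyshev.T ℝ (k : ℤ) := by
      push_cast
      exact e
    rw [e']
    simp only [eval_sub, eval_mul, eval_X, eval_ofNat]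
    have h1 := ih (k + 1) (by omega)
    have h2 := h0 k
    have h3 : 2 * t * eval t (Chebyshev.T ℝ ((k + 1 : ℕ) : ℤ)) ≤ 2 * t * (2 * t) ^ (k + 1) :=
      mul_le_mul_of_nonneg_left h1 (by linarith)
    calc _ ≤ 2 * t * (2 * t) ^ (k + 1) := by linarith
      _ = (2 * t) ^ (k + 2) := by ring

theorem ev_growth {d : ℕ} {g : (I → Bool) → ℝ} (hg : LowDeg d g) (h1 : ∀ x, |g x| ≤ 1)
    {b : I → ℝ} {t : ℝ} (ht : 1 ≤ t) (hb : ∀ i, |b i| ≤ t) : |ev b g| ≤ (2 * t) ^ d := by
  have ht0 : 0 < t := by linarith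
  obtain ⟨P, hP, hPe⟩ := ev_poly hg (fun _ => 0) (fun i => b i / t)
  have hdeg : P.degree ≤ d := natDegree_le_iff_degree_le.1 hP
  have hbd : ∀ x ∈ Set.Icc (-1 : ℝ) 1, |P.eval x| ≤ 1 := by
    intro x hx
    rw [hPe]
    apply abs_ev_le_one h1
    intro i
    rw [zero_add, abs_mul, abs_div, abs_of_pos ht0]
    have hx' : |x| ≤ 1 := abs_le.2 hx
    have hbi : |b i| / t ≤ 1 := (div_le_one ht0).2 (hb i)
    calc |x| * (|b i| / t) ≤ 1 * 1 := by gcongr
      _ = 1 := one_mul 1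
  have k1 := Chebyshev.eval_iterate_derivative_le_of_forall_abs_le_one (k := 0) (x := t)
    ht hdeg hbd
  have k2 := Chebyshev.eval_iterate_derivative_le_of_forall_abs_le_one (P := -P) (k := 0) (x := t)
    ht (by simpa using hdeg) (by simpa using hbd)
  simp only [Function.iterate_zero, id_eq, eval_neg] at k1 k2
  have k3 := (eval_T_le d ht).2
  have e : P.eval t = ev b g := by
    rw [hPe]
    congr 1
    ext i
    field_simp
    ring
  rw [← e, abs_le]
  constructor <;> linarith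

theorem abs_D_eq (f : (I → Bool) → ℝ) (j : I) (x : I → Bool) :
    |D j f x| = |f x - f (Pool.Agent.Lib_helper30.AA.flip j x)| / 2 := by
  unfold D Pool.Agent.Lib_helper30.AA.flip
  rw [abs_div, abs_of_pos (by norm_num : (0:ℝ) < 2)]
  congr 1
  cases h : x j
  · rw [← h, Function.update_eq_self, h, Bool.not_false]
  · rw [Bool.not_true, abs_sub_comm, ← h, Function.update_eq_self]

theorem sum_abs_D_le {d : ℕ} {f : (I → Bool) → ℝ} (hf : ∀ x, |f x| ≤ 1) (hd : LowDeg d f)
    (x : I → Bool) : ∑ j, |D j f x| ≤ 4 * (d : ℝ) ^ 2 := by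
  have h := sens_l1 hf hd Finset.univ x
  have e : ∑ j, |D j f x| = (∑ j, |f x - f (Pool.Agent.Lib_helper30.AA.flip j x)|) / 2 := by
    rw [Finset.sum_div]
    exact Finset.sum_congr rfl fun j _ => abs_D_eq f j x
  rw [e]; linarith

theorem exp_sub_sq_le {t : ℝ} (ht : |t| ≤ 1 / 2) : Real.exp (t - t ^ 2) ≤ 1 + t := by
  rw [abs_le] at ht
  rcases le_total 0 t with h0 | h0
  · have h := Real.abs_exp_sub_one_sub_id_le (x := t - t ^ 2) (by
      rw [abs_le]; constructor <;> nlinarith)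
    have h2 := (abs_le.1 h).2
    have h3 : 0 ≤ t ^ 3 * (2 - t) := mul_nonneg (by positivity) (by linarith)
    nlinarith
  · set a := -t with ha
    have ha0 : 0 ≤ a := by linarith
    have ha1 : a ≤ 1 / 2 := by linarith
    have hq := Real.quadratic_le_exp_of_nonneg (x := a + a ^ 2) (by positivity)
    have e : t - t ^ 2 = -(a + a ^ 2) := by rw [ha]; ring
    have e2 : 1 + t = 1 - a := by rw [ha]; ring
    rw [e, e2, Real.exp_neg]
    have hpos : 0 < Real.exp (a + a ^ 2) := Real.exp_pos _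
    rw [inv_le_comm₀ hpos (by linarith)]
    refine le_trans ?_ hq
    rw [inv_le_comm₀ (by linarith) (by positivity)]
    rw [inv_le_iff_one_le_mul₀ (by positivity)]
    have h1 : 0 ≤ a ^ 2 * ((1 - a) * (1 + a) ^ 2 / 2 - a) := by
      apply mul_nonneg (by positivity)
      nlinarith [mul_nonneg ha0 ha0, mul_nonneg ha0 (sub_nonneg.2 ha1)]
    nlinarith

theorem prod_ge (b : I → ℝ) (hb : ∀ i, |b i| ≤ 1 / 2) (x : I → Bool) :
    Real.exp (∑ i, b i * sg (x i) - ∑ i, b i ^ 2) ≤ ∏ i, (1 + b i * sg (x i)) := by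
  have hs : ∀ i, sg (x i) ^ 2 = 1 := by
    intro i; unfold sg; rw [sq]; exact sign_mul_self _
  have hs' : ∀ i, |sg (x i)| = 1 := by
    intro i; unfold sg; cases x i <;> simp
  have e : ∑ i, b i * sg (x i) - ∑ i, b i ^ 2 = ∑ i, (b i * sg (x i) - (b i * sg (x i)) ^ 2) := by
    rw [← Finset.sum_sub_distrib]
    refine Finset.sum_congr rfl fun i _ => ?_
    rw [mul_pow, hs, mul_one]
  rw [e, Real.exp_sum]
  apply Finset.prod_le_prod
  · intro i _; exact (Real.exp_pos _).le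
  · intro i _
    apply exp_sub_sq_le
    rw [abs_mul, hs', mul_one]; exact hb i

theorem jensen {h : (I → Bool) → ℝ} (h0 : ∀ x, 0 ≤ h x) {b : I → ℝ} (hb : ∀ i, |b i| ≤ 1 / 2)
    (hm : 0 < av h) :
    av h * Real.exp (∑ i, b i * (av (fun x => sg (x i) * h x) / av h) - ∑ i, b i ^ 2) ≤ ev b h := by
  set c := ∑ i, b i * (av (fun x => sg (x i) * h x) / av h) with hc
  set q := ∑ i, b i ^ 2 with hq
  have hN : (0:ℝ) < ((2 : ℝ) ^ (Fintype.card I))⁻¹ := by positivity
  have hpt : ∀ x, h x * (Real.exp (c - q) * (1 + (∑ i, b i * sg (x i) - c))) ≤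
      h x * ∏ i, (1 + b i * sg (x i)) := by
    intro x
    apply mul_le_mul_of_nonneg_left _ (h0 x)
    refine le_trans ?_ (prod_ge b hb x)
    have e : ∑ i, b i * sg (x i) - ∑ i, b i ^ 2 = (c - q) + (∑ i, b i * sg (x i) - c) := by
      rw [hq]; ring
    rw [e, Real.exp_add]
    apply mul_le_mul_of_nonneg_left _ (Real.exp_pos _).le
    have := Real.add_one_le_exp (∑ i, b i * sg (x i) - c)
    linarith
  have hsum : ((2 : ℝ) ^ (Fintype.card I))⁻¹ * ∑ x, h x * (Real.exp (c - q) * (1 + (∑ i, b i * sg (x i) - c)))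
      ≤ ev b h := by
    unfold ev av
    exact mul_le_mul_of_nonneg_left (Finset.sum_le_sum fun x _ => hpt x) hN.le
  refine le_trans (le_of_eq ?_) hsum
  have e1 : ∑ x, h x * (Real.exp (c - q) * (1 + (∑ i, b i * sg (x i) - c))) =
      Real.exp (c - q) * ((1 - c) * ∑ x, h x + ∑ i, b i * ∑ x, sg (x i) * h x) := by
    have : ∑ i, b i * ∑ x, sg (x i) * h x = ∑ x, h x * ∑ i, b i * sg (x i) := by
      simp only [Finset.mul_sum]
      rw [Finset.sum_comm]
      refine Finset.sum_congr rfl fun x _ => Finset.sum_congr rfl fun i _ => ?_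
      ring
    rw [this, Finset.mul_sum, ← Finset.sum_add_distrib, Finset.mul_sum]
    refine Finset.sum_congr rfl fun x _ => ?_
    ring
  rw [e1]
  have e2 : ((2 : ℝ) ^ (Fintype.card I))⁻¹ * (Real.exp (c - q) * ((1 - c) * ∑ x, h x + ∑ i, b i * ∑ x, sg (x i) * h x))
      = Real.exp (c - q) * ((1 - c) * av h + ∑ i, b i * av (fun x => sg (x i) * h x)) := by
    unfold av
    have : ∑ i, b i * (((2 : ℝ) ^ (Fintype.card I))⁻¹ * ∑ x, sg (x i) * h x) =
        ((2 : ℝ) ^ (Fintype.card I))⁻¹ * ∑ i, b i * ∑ x, sg (x i) * h x := by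
      rw [Finset.mul_sum]
      refine Finset.sum_congr rfl fun i _ => ?_
      ring
    rw [this]; ring
  rw [e2]
  have e3 : ∑ i, b i * av (fun x => sg (x i) * h x) = c * av h := by
    rw [hc, Finset.sum_mul]
    refine Finset.sum_congr rfl fun i _ => ?_
    field_simp
  rw [e3]; ring

theorem sg_sq (b : Bool) : sg b * sg b = 1 := by
  unfold sg; exact sign_mul_self b

theorem D_add (h : (I → Bool) → ℝ) (i : I) (x : I → Bool) :
    D i h x + D i h x = sg (x i) * h x +
      sg (Pool.Agent.Lib_helper30.AA.flip i x i) * h (Pool.Agent.Lib_helper30.AA.flip i x) := by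
  unfold D Pool.Agent.Lib_helper30.AA.flip
  rw [Function.update_self]
  cases hx : x i
  · have e : Function.update x i false = x := by rw [← hx, Function.update_eq_self]
    rw [e, Bool.not_false]
    simp [sg]; ring
  · have e : Function.update x i true = x := by rw [← hx, Function.update_eq_self]
    rw [e, Bool.not_true]
    simp [sg]; ring

theorem av_D (h : (I → Bool) → ℝ) (i : I) : av (D i h) = av (fun x => sg (x i) * h x) := by
  unfold av
  congr 1
  have h1 : ∑ x, sg (x i) * h x = ∑ x, sg (Pool.Agent.Lib_helper30.AA.flip i x i) *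
      h (Pool.Agent.Lib_helper30.AA.flip i x) :=
    (Equiv.sum_comp (flipEquiv i) (fun x => sg (x i) * h x)).symm
  have h2 : ∑ x, D i h x + ∑ x, D i h x = ∑ x, sg (x i) * h x +
      ∑ x, sg (Pool.Agent.Lib_helper30.AA.flip i x i) * h (Pool.Agent.Lib_helper30.AA.flip i x) := by
    rw [← Finset.sum_add_distrib, ← Finset.sum_add_distrib]
    exact Finset.sum_congr rfl fun x _ => D_add h i x
  rw [← h1] at h2
  linarith

theorem abs_D_le_one {f : (I → Bool) → ℝ} (hf : ∀ x, |f x| ≤ 1) (j : I) (x : I → Bool) :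
    |D j f x| ≤ 1 := by
  unfold D
  rw [abs_div, abs_of_pos (by norm_num : (0:ℝ) < 2)]
  have h1 := hf (Function.update x j false)
  have h2 := hf (Function.update x j true)
  have h3 := abs_sub (f (Function.update x j false)) (f (Function.update x j true))
  linarith

/-- a nonnegative polynomial bounded by one on `[0,U]` cannot decrease fast at `0` -/
theorem deriv_sq_le {n : ℕ} (hn : 1 ≤ n) {P : ℝ[X]} (hdeg : P.natDegree ≤ n) {U : ℝ} (hU : 0 < U)
    (h0 : ∀ x ∈ Set.Icc (0:ℝ) U, 0 ≤ P.eval x) (h1 : ∀ x ∈ Set.Icc (0:ℝ) U, P.eval x ≤ 1)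
    (hneg : P.derivative.eval 0 ≤ 0) :
    (P.derivative.eval 0) ^ 2 ≤ 2 * P.eval 0 * (4 * (n : ℝ) ^ 2 / U) ^ 2 := by
  have hn' : (1:ℝ) ≤ n := by exact_mod_cast hn
  set L : ℝ := 4 * (n : ℝ) ^ 2 / U with hL
  have hLpos : 0 < L := by positivity
  have hb : ∀ x ∈ Set.Icc (0:ℝ) U, |P.eval x| ≤ 1 := fun x hx =>
    abs_le.2 ⟨by linarith [h0 x hx], h1 x hx⟩
  have hb1 : ∀ x ∈ Set.Icc (0:ℝ) U, |P.derivative.eval x| ≤ L := by
    intro x hx
    have := markov_interval hdeg hU one_pos hb hx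
    rw [mul_one] at this
    exact this
  have hdeg' : P.derivative.natDegree ≤ n := (natDegree_derivative_le P).trans (by omega)
  have hb2 : ∀ x ∈ Set.Icc (0:ℝ) U, |P.derivative.derivative.eval x| ≤ L ^ 2 := by
    intro x hx
    have := markov_interval hdeg' hU hLpos hb1 hx
    refine this.trans (le_of_eq ?_)
    rw [hL]; ring
  set a := -(P.derivative.eval 0) with ha
  have ha0 : 0 ≤ a := by linarith
  have h0U : (0:ℝ) ∈ Set.Icc (0:ℝ) U := ⟨le_rfl, hU.le⟩
  have haL : a ≤ L := by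
    have := (abs_le.1 (hb1 0 h0U)).1
    linarith
  -- derivative bound : P'(t) ≤ -a + L² t
  have hd1 : ∀ t ∈ Set.Icc (0:ℝ) U, P.derivative.eval t ≤ -a + L ^ 2 * t := by
    intro t ht
    have := markov_lipschitz (P := P.derivative) hdeg' hU hLpos hb1 h0U ht
    have h2 := (abs_le.1 this).2
    rw [sub_zero, abs_of_nonneg ht.1] at h2
    have e : 4 * (n:ℝ) ^ 2 * L / U = L ^ 2 := by rw [hL]; ring
    rw [e] at h2
    linarith
  -- Taylor
  have hT : ∀ t ∈ Set.Icc (0:ℝ) U, P.eval t ≤ P.eval 0 - a * t + L ^ 2 * t ^ 2 / 2 := by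
    intro t ht
    have hanti : AntitoneOn (fun t => P.eval t - (-(a * t) + L ^ 2 * t ^ 2 / 2)) (Set.Icc 0 U) := by
      have hder : ∀ x : ℝ, HasDerivAt (fun t => P.eval t - (-(a * t) + L ^ 2 * t ^ 2 / 2))
          (P.derivative.eval x - (-(a * 1) + L ^ 2 * (2 * x) / 2)) x := by
        intro x
        have d1 := P.hasDerivAt x
        have d2 : HasDerivAt (fun t : ℝ => a * t) (a * 1) x := (hasDerivAt_id x).const_mul a
        have d3 : HasDerivAt (fun t : ℝ => L ^ 2 * t ^ 2 / 2) (L ^ 2 * (2 * x) / 2) x := by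
          have := ((hasDerivAt_pow 2 x).const_mul (L ^ 2)).div_const 2
          simpa using this
        exact d1.sub (d2.neg.add d3)
      apply antitoneOn_of_deriv_nonpos (convex_Icc 0 U)
      · exact fun x _ => (hder x).continuousAt.continuousWithinAt
      · exact fun x _ => (hder x).differentiableAt.differentiableWithinAt
      · intro x hx
        rw [interior_Icc] at hx
        rw [(hder x).deriv]
        have := hd1 x ⟨hx.1.le, hx.2.le⟩
        linarith
    have := hanti h0U ht ht.1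
    simp only at this
    have e : P.eval 0 - (-(a * 0) + L ^ 2 * 0 ^ 2 / 2) = P.eval 0 := by ring
    rw [e] at this
    linarith
  have hs : a / L ^ 2 ∈ Set.Icc (0:ℝ) U := by
    refine ⟨by positivity, ?_⟩
    rw [div_le_iff₀ (by positivity)]
    calc a ≤ L * 1 := by linarith
      _ ≤ L * (4 * (n:ℝ) ^ 2) := by
          apply mul_le_mul_of_nonneg_left _ hLpos.le
          nlinarith
      _ = U * L ^ 2 := by rw [hL]; field_simp
  have h2 := hT _ hs
  have h3 := h0 _ hs
  have e : P.eval 0 - a * (a / L ^ 2) + L ^ 2 * (a / L ^ 2) ^ 2 / 2 = P.eval 0 - a ^ 2 / (2 * L ^ 2) := by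
    field_simp
    ring
  rw [e] at h2
  have h4 : a ^ 2 / (2 * L ^ 2) ≤ P.eval 0 := by linarith
  rw [div_le_iff₀ (by positivity)] at h4
  calc (P.derivative.eval 0) ^ 2 = a ^ 2 := by rw [ha]; ring
    _ ≤ P.eval 0 * (2 * L ^ 2) := h4
    _ = 2 * P.eval 0 * L ^ 2 := by ring

theorem superlight {d : ℕ} (hd1 : 1 ≤ d) {f : (I → Bool) → ℝ} (hf : ∀ x, |f x| ≤ 1)
    (hd : LowDeg d f) {j : I} (hm : 0 < inf f j) (A : Finset I) {B : ℝ} (hB : 0 < B)
    (hA : ∀ i ∈ A, |vv f i j| ≤ B * inf f j) :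
    (∑ i ∈ A, (vv f i j / inf f j) ^ 2) * Real.sqrt (inf f j) ≤ 32 * (d : ℝ) ^ 2 * B := by
  set m := inf f j with hmdef
  set h : (I → Bool) → ℝ := fun x => D j f x ^ 2 with hh
  have hdeg : LowDeg (2 * d) h := by
    have h1 := lowDeg_mul (lowDeg_D hd j) (lowDeg_D hd j)
    have e : (fun x => D j f x * D j f x) = h := by
      ext x; rw [hh]; ring
    rw [e] at h1
    rwa [two_mul]
  have hav : av h = m := rfl
  have hvv : ∀ i, av (D i h) = vv f i j := fun i => av_D h i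
  let u : I → ℝ := fun i => if i ∈ A then vv f i j / m else 0
  have hu : ∀ i, |u i| ≤ B := by
    intro i
    by_cases hi : i ∈ A
    · have : u i = vv f i j / m := if_pos hi
      rw [this, abs_div, abs_of_pos hm, div_le_iff₀ hm]
      exact hA i hi
    · have : u i = 0 := if_neg hi
      rw [this, abs_zero]; exact hB.le
  obtain ⟨P, hP, hPe⟩ := ev_poly hdeg (fun _ => 0) (fun i => -u i)
  set U : ℝ := 1 / B with hU
  have hUpos : 0 < U := by positivity
  have hbd : ∀ x ∈ Set.Icc (0:ℝ) U, ∀ i, |(0:ℝ) + x * -u i| ≤ 1 := by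
    intro x hx i
    rw [zero_add, abs_mul, abs_neg, abs_of_nonneg hx.1]
    calc x * |u i| ≤ U * B := mul_le_mul hx.2 (hu i) (abs_nonneg _) hUpos.le
      _ = 1 := by rw [hU]; field_simp
  have hnn : ∀ x, 0 ≤ h x := fun x => sq_nonneg _
  have hle : ∀ x, h x ≤ 1 := by
    intro x
    have := abs_D_le_one hf j x
    rw [hh]
    simp only
    rw [← sq_abs]
    exact pow_le_one₀ (abs_nonneg _) this
  have h0 : ∀ x ∈ Set.Icc (0:ℝ) U, 0 ≤ P.eval x := by
    intro x hx
    rw [hPe]; exact ev_nonneg (hbd x hx) hnn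
  have h1 : ∀ x ∈ Set.Icc (0:ℝ) U, P.eval x ≤ 1 := by
    intro x hx
    rw [hPe]
    have := ev_mono (g := h) (h := fun _ => (1:ℝ)) (hbd x hx) hle
    rwa [ev_const] at this
  have hP0 : P.eval 0 = m := by
    rw [hPe]
    have : (fun i : I => (0:ℝ) + 0 * -u i) = fun _ => 0 := by ext i; ring
    rw [this, ev_zero, hav]
  have hP1 : P.derivative.eval 0 = -(m * ∑ i ∈ A, (vv f i j / m) ^ 2) := by
    have d1 := P.hasDerivAt 0
    have d2 := hasDerivAt_ev (fun _ => (0:ℝ)) (fun i => -u i) h 0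
    have e : (fun t => ev (fun i => (0:ℝ) + t * -u i) h) = fun t => P.eval t := by
      ext t; rw [hPe]
    rw [e] at d2
    rw [d1.unique d2]
    have e2 : ∀ i, -u i * ev (fun k => (0:ℝ) + 0 * -u k) (D i h) = -(u i * vv f i j) := by
      intro i
      have : (fun i : I => (0:ℝ) + 0 * -u i) = fun _ => 0 := by ext i; ring
      rw [this, ev_zero, hvv]; ring
    rw [Finset.sum_congr rfl (fun i _ => e2 i), Finset.sum_neg_distrib, Finset.mul_sum]
    congr 1
    have e3 : ∀ i, u i * vv f i j = if i ∈ A then m * (vv f i j / m) ^ 2 else 0 := by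
      intro i
      by_cases hi : i ∈ A
      · have : u i = vv f i j / m := if_pos hi
        rw [this, if_pos hi]
        field_simp
      · have : u i = 0 := if_neg hi
        rw [this, if_neg hi, zero_mul]
    rw [Finset.sum_congr rfl (fun i _ => e3 i), Finset.sum_ite_mem, Finset.univ_inter]
  set Y := ∑ i ∈ A, (vv f i j / m) ^ 2 with hY
  have hY0 : 0 ≤ Y := Finset.sum_nonneg fun i _ => sq_nonneg _
  have key := deriv_sq_le (n := 2 * d) (by omega) hP hUpos h0 h1 (by
    rw [hP1]; have := mul_nonneg hm.le hY0; linarith)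
  rw [hP0, hP1] at key
  have hd' : (1:ℝ) ≤ d := by exact_mod_cast hd1
  have e4 : (4 * ((2 * d : ℕ) : ℝ) ^ 2 / U) = 16 * (d:ℝ) ^ 2 * B := by
    rw [hU]; push_cast; field_simp; ring
  rw [e4] at key
  have hs := Real.sq_sqrt hm.le
  have hs0 : 0 < Real.sqrt m := Real.sqrt_pos.2 hm
  have h5 : (Y * Real.sqrt m) ^ 2 ≤ (32 * (d:ℝ) ^ 2 * B) ^ 2 := by
    have h6 : m * (Y ^ 2 * m) ≤ m * (2 * (16 * (d:ℝ) ^ 2 * B) ^ 2) := by nlinarith
    have h7 := le_of_mul_le_mul_left h6 hm
    calc (Y * Real.sqrt m) ^ 2 = Y ^ 2 * m := by rw [mul_pow, hs]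
      _ ≤ 2 * (16 * (d:ℝ) ^ 2 * B) ^ 2 := h7
      _ ≤ (32 * (d:ℝ) ^ 2 * B) ^ 2 := by nlinarith [sq_nonneg ((d:ℝ) ^ 2 * B)]
  exact le_of_sq_le_sq h5 (by positivity)

end Pool.Agent.Lib_helper90.QPc.H96
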