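import Mathlib

/-! # Block T4 of the quasi-polynomial Aaronson-Ambainis theorem (helper40)
Weighted independent sets, the Russo formula for random restrictions and a differential
inequality. -/

set_option autoImplicit false

open Finset

namespace Pool.Agent.Lib_helper90.QPc.H40

variable {I : Type} [Fintype I] [DecidableEq I]

omit [Fintype I] in
/-- weighted independent sets -/
theorem exists_indep (J : Finset I) (w : I → ℝ) (hw : ∀ j ∈ J, 0 ≤ w j) (r : I → I → Prop)
    [DecidableRel r] (hr : ∀ i j, r i j → r j i) {Δ : ℝ}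
    (hΔ : ∀ j ∈ J, (((J.filter fun k => r j k).card : ℕ) : ℝ) ≤ Δ) :
    ∃ J' ⊆ J, (∀ i ∈ J', ∀ j ∈ J', i ≠ j → ¬ r i j) ∧ ∑ j ∈ J, w j ≤ (1 + Δ) * ∑ j ∈ J', w j := by
  induction hn : J.card using Nat.strong_induction_on generalizing J with
  | _ n ih =>
    rcases J.eq_empty_or_nonempty with rfl | hne
    · exact ⟨∅, subset_rfl, by simp, by simp⟩
    · obtain ⟨j0, hj0, hmax⟩ := J.exists_max_image w hne
      set N := J.filter fun k => r j0 k with hN
      set K := insert j0 N with hK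
      have hKJ : K ⊆ J := by
        intro k hk
        rw [hK, mem_insert] at hk
        rcases hk with rfl | hk
        · exact hj0
        · exact (mem_filter.1 hk).1
      set J1 := J \ K with hJ1
      have hsub : J1 ⊆ J := sdiff_subset
      have hlt : J1.card < n := by
        rw [← hn]
        apply card_lt_card
        refine ⟨hsub, fun h => ?_⟩
        have := h hj0
        rw [hJ1, mem_sdiff] at this
        exact this.2 (by rw [hK]; exact mem_insert_self _ _)
      obtain ⟨J', hJ', hind, hsum⟩ := ih J1.card hlt J1 (fun j hj => hw j (hsub hj)) (fun j hj => by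
        refine le_trans ?_ (hΔ j (hsub hj))
        exact_mod_cast card_le_card (filter_subset_filter _ hsub)) rfl
      have hj0' : j0 ∉ J' := fun h => by
        have := hJ' h
        rw [hJ1, mem_sdiff] at this
        exact this.2 (by rw [hK]; exact mem_insert_self _ _)
      have hnr : ∀ i ∈ J', ¬ r j0 i := by
        intro i hi h
        have h1 := hJ' hi
        rw [hJ1, mem_sdiff] at h1
        exact h1.2 (by
          rw [hK, hN]
          exact mem_insert_of_mem (mem_filter.2 ⟨h1.1, h⟩))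
      have hΔ0 : 0 ≤ Δ := le_trans (by positivity) (hΔ j0 hj0)
      refine ⟨insert j0 J', insert_subset hj0 (hJ'.trans hsub), ?_, ?_⟩
      · intro i hi j hj hij
        rw [mem_insert] at hi hj
        rcases hi with rfl | hi
        · rcases hj with rfl | hj
          · exact absurd rfl hij
          · exact hnr j hj
        · rcases hj with rfl | hj
          · exact fun h => hnr i hi (hr _ _ h)
          · exact hind i hi j hj hij
      · rw [sum_insert hj0']
        have h1 : ∑ j ∈ J, w j = ∑ j ∈ J1, w j + ∑ j ∈ K, w j := by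
          rw [hJ1, sum_sdiff hKJ]
        have h2 : ∑ j ∈ K, w j ≤ (K.card : ℝ) * w j0 := by
          calc ∑ j ∈ K, w j ≤ ∑ _j ∈ K, w j0 := sum_le_sum fun j hj => hmax j (hKJ hj)
            _ = (K.card : ℝ) * w j0 := by rw [sum_const, nsmul_eq_mul]
        have h3 : (K.card : ℝ) ≤ 1 + Δ := by
          have : K.card ≤ N.card + 1 := card_insert_le _ _
          have h' : (N.card : ℝ) ≤ Δ := hΔ j0 hj0
          have h'' : (K.card : ℝ) ≤ N.card + 1 := by exact_mod_cast this
          linarith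
        have h4 : (K.card : ℝ) * w j0 ≤ (1 + Δ) * w j0 :=
          mul_le_mul_of_nonneg_right h3 (hw j0 hj0)
        rw [h1]
        linarith

/-- Expectation over a random subset with density `ρ`. -/
noncomputable def rs (ρ : ℝ) (Q : Finset I → ℝ) : ℝ :=
  ∑ R : Finset I, ρ ^ R.card * (1 - ρ) ^ (Rᶜ).card * Q R

theorem sum_insert_swap (h : Finset I → ℝ) (g : ℕ → ℕ → ℝ) :
    ∑ R : Finset I, ∑ i ∈ Rᶜ, g R.card (Rᶜ).card * h (insert i R) =
      ∑ R : Finset I, ∑ _i ∈ R, g (R.card - 1) ((Rᶜ).card + 1) * h R := by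
  rw [sum_sigma', sum_sigma']
  refine sum_bij' (fun p _ => ⟨insert p.2 p.1, p.2⟩) (fun p _ => ⟨p.1.erase p.2, p.2⟩) ?_ ?_ ?_ ?_ ?_
  · rintro ⟨R, i⟩ hp
    simp
  · rintro ⟨R, i⟩ hp
    simp
  · rintro ⟨R, i⟩ hp
    simp only [mem_sigma, mem_univ, mem_compl, true_and] at hp
    simp [erase_insert hp]
  · rintro ⟨R, i⟩ hp
    simp only [mem_sigma, mem_univ, true_and] at hp
    simp [insert_erase hp]
  · rintro ⟨R, i⟩ hp
    simp only [mem_sigma, mem_univ, mem_compl, true_and] at hp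
    have h1 : (insert i R).card = R.card + 1 := card_insert_of_notMem hp
    have h2 : ((insert i R)ᶜ).card + 1 = (Rᶜ).card := by
      rw [card_compl, card_compl, h1]
      have : R.card + 1 ≤ Fintype.card I := by
        rw [← h1]
        exact card_le_univ _
      omega
    simp only
    rw [h1, h2, Nat.add_sub_cancel]

theorem russo (Q : Finset I → ℝ) {ρ : ℝ} (_hρ : ρ < 1) :
    ∃ F', HasDerivAt (fun ρ => rs ρ Q) F' ρ ∧
      (1 - ρ) * F' = rs ρ (fun R => ∑ i ∈ Rᶜ, (Q (insert i R) - Q R)) := by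
  refine ⟨∑ R : Finset I, ((R.card : ℝ) * ρ ^ (R.card - 1) * (1 - ρ) ^ (Rᶜ).card +
    ρ ^ R.card * (((Rᶜ).card : ℝ) * (1 - ρ) ^ ((Rᶜ).card - 1) * (-1))) * Q R, ?_, ?_⟩
  · unfold rs
    refine HasDerivAt.fun_sum fun R _ => ?_
    refine HasDerivAt.mul_const ?_ _
    refine HasDerivAt.mul (hasDerivAt_pow _ _) ?_
    exact ((hasDerivAt_id' ρ).const_sub 1).pow _
  · have h1 : rs ρ (fun R => ∑ i ∈ Rᶜ, (Q (insert i R) - Q R)) =
        ∑ R : Finset I, ∑ i ∈ Rᶜ, (ρ ^ R.card * (1 - ρ) ^ (Rᶜ).card) * Q (insert i R) -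
        ∑ R : Finset I, ρ ^ R.card * (1 - ρ) ^ (Rᶜ).card * ((Rᶜ).card * Q R) := by
      unfold rs
      rw [← sum_sub_distrib]
      refine sum_congr rfl fun R _ => ?_
      simp only
      rw [sum_sub_distrib, sum_const, nsmul_eq_mul, ← mul_sum]
      ring
    rw [h1, sum_insert_swap Q (fun a b => ρ ^ a * (1 - ρ) ^ b), ← sum_sub_distrib, mul_sum]
    refine sum_congr rfl fun R _ => ?_
    rw [sum_const, nsmul_eq_mul]
    have h2 : (((Rᶜ).card : ℝ)) * ((1 - ρ) * (1 - ρ) ^ ((Rᶜ).card - 1)) =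
        ((Rᶜ).card : ℝ) * (1 - ρ) ^ (Rᶜ).card := by
      rcases Nat.eq_zero_or_pos (Rᶜ).card with h | h
      · rw [h]; simp
      · rw [← pow_succ', Nat.sub_add_cancel h]
    have h3 : (1 - ρ) ^ ((Rᶜ).card + 1) = (1 - ρ) * (1 - ρ) ^ (Rᶜ).card := by ring
    rw [h3]
    linear_combination (-(ρ ^ R.card * Q R)) * h2

/-- Differential inequality. -/
theorem gronwall {F : ℝ → ℝ} {A B : ℝ} (hA : 0 < A) (hF : ∀ ρ ∈ Set.Ico (0 : ℝ) 1,
    ∃ F', HasDerivAt F F' ρ ∧ (1 - ρ) * F' ≤ A * F ρ + B) {ρ : ℝ} (hρ : ρ ∈ Set.Ico (0 : ℝ) 1) :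
    F ρ + B / A ≤ (F 0 + B / A) * (1 - ρ) ^ (-A) := by
  have hder : ∀ x ∈ Set.Ico (0 : ℝ) 1, ∃ G' ≤ 0,
      HasDerivAt (fun x => (F x + B / A) * (1 - x) ^ A) G' x := by
    intro x hx
    obtain ⟨F', h1, h2⟩ := hF x hx
    have hx1 : 0 < 1 - x := by linarith [hx.2]
    refine ⟨F' * (1 - x) ^ A + (F x + B / A) * ((-1) * A * (1 - x) ^ (A - 1)), ?_, ?_⟩
    · have e1 : (1 - x) ^ A = (1 - x) * (1 - x) ^ (A - 1) := by
        rw [Real.rpow_sub_one hx1.ne']
        field_simp
      have e2 : F' * (1 - x) ^ A + (F x + B / A) * ((-1) * A * (1 - x) ^ (A - 1)) =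
          (1 - x) ^ (A - 1) * ((1 - x) * F' - (A * F x + B)) := by
        rw [e1]
        field_simp
        ring
      rw [e2]
      exact mul_nonpos_of_nonneg_of_nonpos (Real.rpow_nonneg hx1.le _) (by linarith)
    · refine HasDerivAt.mul (h1.add_const _) ?_
      exact ((hasDerivAt_id' x).const_sub 1).rpow_const (Or.inl hx1.ne')
  have hanti : AntitoneOn (fun x => (F x + B / A) * (1 - x) ^ A) (Set.Icc 0 ρ) := by
    have hsub : ∀ x ∈ Set.Icc (0 : ℝ) ρ, x ∈ Set.Ico (0 : ℝ) 1 := fun x hx =>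
      ⟨hx.1, lt_of_le_of_lt hx.2 hρ.2⟩
    refine antitoneOn_of_deriv_nonpos (convex_Icc _ _) ?_ ?_ ?_
    · intro x hx
      obtain ⟨G', _, h⟩ := hder x (hsub x hx)
      exact h.continuousAt.continuousWithinAt
    · intro x hx
      obtain ⟨G', _, h⟩ := hder x (hsub x (interior_subset hx))
      exact h.differentiableAt.differentiableWithinAt
    · intro x hx
      obtain ⟨G', h0, h⟩ := hder x (hsub x (interior_subset hx))
      rw [h.deriv]
      exact h0
  have h := hanti (Set.left_mem_Icc.2 hρ.1) (Set.right_mem_Icc.2 hρ.1) hρ.1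
  simp only [sub_zero, Real.one_rpow, mul_one] at h
  have hρ1 : 0 < 1 - ρ := by linarith [hρ.2]
  have hpos : 0 < (1 - ρ) ^ (-A) := Real.rpow_pos_of_pos hρ1 _
  calc F ρ + B / A = (F ρ + B / A) * (1 - ρ) ^ A * (1 - ρ) ^ (-A) := by
        rw [mul_assoc, ← Real.rpow_add hρ1]
        simp
    _ ≤ (F 0 + B / A) * (1 - ρ) ^ (-A) := mul_le_mul_of_nonneg_right h hpos.le

end Pool.Agent.Lib_helper90.QPc.H40
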