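import Pool.Agent.Lib_helper90.QPc.EvBasic
import Pool.Agent.Lib_helper90.QPc.T4
import Pool.Agent.Lib_helper90.QPc.T5

/-! The flow of the variance under random restrictions. -/

set_option autoImplicit false
set_option linter.unusedSectionVars false

open Finset Polynomial

namespace Pool.Agent.Lib_helper90.QPc.H8

open Pool.Agent.Lib_helper30.AA Pool.Agent.Lib_helper90.QPc.H40

variable {I : Type} [Fintype I] [DecidableEq I]

lemma rs_mono {ρ : ℝ} (h0 : 0 ≤ ρ) (h1 : ρ ≤ 1) {P Q : Finset I → ℝ} (h : ∀ S, P S ≤ Q S) :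
    rs ρ P ≤ rs ρ Q := by
  unfold rs
  have : 0 ≤ 1 - ρ := by linarith
  exact Finset.sum_le_sum fun S _ => mul_le_mul_of_nonneg_left (h S) (by positivity)

lemma rs_nonneg {ρ : ℝ} (h0 : 0 ≤ ρ) (h1 : ρ ≤ 1) {Q : Finset I → ℝ} (h : ∀ S, 0 ≤ Q S) :
    0 ≤ rs ρ Q := by
  unfold rs
  have : 0 ≤ 1 - ρ := by linarith
  exact Finset.sum_nonneg fun S _ => mul_nonneg (by positivity) (h S)

lemma rs_add (ρ : ℝ) (P Q : Finset I → ℝ) : rs ρ (fun S => P S + Q S) = rs ρ P + rs ρ Q := by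
  unfold rs
  rw [← Finset.sum_add_distrib]
  exact Finset.sum_congr rfl fun S _ => by ring

lemma rs_mul_left (ρ c : ℝ) (Q : Finset I → ℝ) : rs ρ (fun S => c * Q S) = c * rs ρ Q := by
  unfold rs
  rw [Finset.mul_sum]
  exact Finset.sum_congr rfl fun S _ => by ring

lemma rs_const (ρ c : ℝ) : rs ρ (fun _ : Finset I => c) = c := by
  unfold rs
  rw [← Finset.sum_mul]
  have h := Fintype.sum_pow_mul_eq_add_pow I ρ (1 - ρ)
  have h2 : ∑ S : Finset I, ρ ^ S.card * (1 - ρ) ^ (Sᶜ).card = 1 := by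
    simp_rw [Finset.card_compl]
    rw [h]; ring_nf
  rw [h2, one_mul]

/-- Pointwise bound on the squares of the mean derivatives. -/
lemma sum_sq_mean_le {d : ℕ} {g : (I → Bool) → ℝ}
    (hsum : ∀ x, ∑ j, |D j g x| ≤ 4 * (d : ℝ) ^ 2) {α k : ℝ} (hα : 0 < α) (hα1 : α ≤ 1)
    (hk : 0 < k) (hk1 : k ≤ 1) :
    ∑ i, av (D i g) ^ 2 ≤
      4 * (d : ℝ) ^ 2 * (Real.sqrt k + k ^ (-2 : ℝ) * ∑ j, inf g j ^ (1 + α)) := by
  have hinf : ∀ j, 0 ≤ inf g j := fun j => av_nonneg fun _ => sq_nonneg _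
  set Bd : ℝ := Real.sqrt k + k ^ (-2 : ℝ) * ∑ j, inf g j ^ (1 + α) with hBd
  have hkp : 0 < k ^ (-2 : ℝ) := Real.rpow_pos_of_pos hk _
  have hsnn : 0 ≤ ∑ j, inf g j ^ (1 + α) :=
    Finset.sum_nonneg fun j _ => Real.rpow_nonneg (hinf j) _
  have hB0 : 0 ≤ Bd := by positivity
  have h1 : ∀ i, |av (D i g)| ≤ Bd := by
    intro i
    have h2 : |av (D i g)| ≤ Real.sqrt (inf g i) := by
      apply Real.abs_le_sqrt
      have := av_cs (D i g) (fun _ => 1)
      simp only [mul_one, one_pow] at this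
      rw [av_const, mul_one] at this
      exact this
    refine h2.trans ?_
    rcases le_or_gt (inf g i) k with h | h
    · have := Real.sqrt_le_sqrt h
      have h3 : 0 ≤ k ^ (-2 : ℝ) * ∑ j, inf g j ^ (1 + α) := by positivity
      linarith
    · have hpos : 0 < inf g i := hk.trans h
      have h3 : Real.sqrt (inf g i) ≤ k ^ (-2 : ℝ) * inf g i ^ (1 + α) := by
        have e1 : Real.sqrt (inf g i) = inf g i ^ (-(1 / 2 + α)) * inf g i ^ (1 + α) := by
          rw [← Real.rpow_add hpos, Real.sqrt_eq_rpow]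
          congr 1; ring
        rw [e1]
        apply mul_le_mul_of_nonneg_right _ (Real.rpow_nonneg hpos.le _)
        calc inf g i ^ (-(1 / 2 + α)) ≤ k ^ (-(1 / 2 + α)) :=
              Real.rpow_le_rpow_of_nonpos hk h.le (by linarith)
          _ ≤ k ^ (-2 : ℝ) := Real.rpow_le_rpow_of_exponent_ge hk hk1 (by linarith)
      have h4 : inf g i ^ (1 + α) ≤ ∑ j, inf g j ^ (1 + α) :=
        Finset.single_le_sum (f := fun j => inf g j ^ (1 + α))
          (fun j _ => Real.rpow_nonneg (hinf j) _) (Finset.mem_univ i)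
      have h5 : k ^ (-2 : ℝ) * inf g i ^ (1 + α) ≤ k ^ (-2 : ℝ) * ∑ j, inf g j ^ (1 + α) :=
        mul_le_mul_of_nonneg_left h4 hkp.le
      have h6 := Real.sqrt_nonneg k
      linarith
  calc ∑ i, av (D i g) ^ 2 ≤ ∑ i, |av (D i g)| * Bd := by
        refine Finset.sum_le_sum fun i _ => ?_
        rw [← sq_abs, sq]
        exact mul_le_mul_of_nonneg_left (h1 i) (abs_nonneg _)
    _ = (∑ i, |av (D i g)|) * Bd := by rw [Finset.sum_mul]
    _ ≤ (4 * (d : ℝ) ^ 2) * Bd := by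
        apply mul_le_mul_of_nonneg_right _ hB0
        calc ∑ i, |av (D i g)| ≤ ∑ i, av (fun x => |D i g x|) :=
              Finset.sum_le_sum fun i _ => abs_av_le _
          _ = av (fun x => ∑ i, |D i g x|) := by rw [av_sum]
          _ ≤ _ := av_le_const hsum

theorem var_flow {d : ℕ} (hd1 : 1 ≤ d) {f : (I → Bool) → ℝ} (hd : LowDeg d f)
    (hsum : ∀ (S : Finset I) (z x : I → Bool), ∑ j, |D j (res S z f) x| ≤ 4 * (d : ℝ) ^ 2)
    {α k M : ℝ} (hα : 0 < α) (hα1 : α ≤ 1) (hk : 0 < k) (hk1 : k ≤ 1)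
    (hM : ∀ ρ ∈ Set.Icc (0 : ℝ) (1 - 1 / (2 * d)),
      rs ρ (fun S => av (fun z => ∑ j, inf (res S z f) j ^ (1 + α))) ≤ M) :
    av (fun x => f x ^ 2) - av f ^ 2 ≤ 16 * (d : ℝ) ^ 3 * (Real.sqrt k + k ^ (-2 : ℝ) * M) := by
  have hd0 : (1 : ℝ) ≤ d := by exact_mod_cast hd1
  have hdp : (0 : ℝ) < d := by linarith
  set ρ0 : ℝ := 1 - 1 / (2 * d) with hρ0
  have hinv : 1 / (2 * (d : ℝ)) ≤ 1 / 2 := by
    apply one_div_le_one_div_of_le (by norm_num); linarith
  have hinv0 : 0 < 1 / (2 * (d : ℝ)) := by positivity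
  have hρ00 : 0 ≤ ρ0 := by rw [hρ0]; linarith
  have hρ01 : ρ0 < 1 := by rw [hρ0]; linarith
  set Q : Finset I → ℝ := fun S => av (fun z => av (res S z f) ^ 2) with hQ
  set Bd : ℝ := 4 * (d : ℝ) ^ 2 * (Real.sqrt k + k ^ (-2 : ℝ) * M) with hBd
  have hkp : 0 < k ^ (-2 : ℝ) := Real.rpow_pos_of_pos hk _
  have hPsi0 : ∀ ρ ∈ Set.Icc (0 : ℝ) 1,
      0 ≤ rs ρ (fun S => av (fun z => ∑ j, inf (res S z f) j ^ (1 + α))) := by
    intro ρ hρ
    refine rs_nonneg hρ.1 hρ.2 fun S => av_nonneg fun z => Finset.sum_nonneg fun j _ => ?_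
    exact Real.rpow_nonneg (av_nonneg fun _ => sq_nonneg _) _
  have hM0 : 0 ≤ M := (hPsi0 0 ⟨le_rfl, zero_le_one⟩).trans (hM 0 ⟨le_rfl, hρ00⟩)
  have hBd0 : 0 ≤ Bd := by
    have := Real.sqrt_nonneg k
    positivity
  -- derivative bound
  have hder : ∀ ρ ∈ Set.Icc (0 : ℝ) ρ0, ∃ F', HasDerivAt (fun ρ => rs ρ Q) F' ρ ∧
      F' ≤ 2 * d * Bd := by
    intro ρ hρ
    have hρ1 : ρ < 1 := lt_of_le_of_lt hρ.2 hρ01
    obtain ⟨F', h1, h2⟩ := russo Q hρ1
    refine ⟨F', h1, ?_⟩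
    have h3 : (1 - ρ) * F' ≤ Bd := by
      rw [h2]
      calc rs ρ (fun S => ∑ i ∈ Sᶜ, (Q (insert i S) - Q S))
          ≤ rs ρ (fun S => 4 * (d : ℝ) ^ 2 * Real.sqrt k + 4 * (d : ℝ) ^ 2 * k ^ (-2 : ℝ) *
              av (fun z => ∑ j, inf (res S z f) j ^ (1 + α))) := by
            refine rs_mono hρ.1 hρ1.le fun S => ?_
            calc ∑ i ∈ Sᶜ, (Q (insert i S) - Q S)
                = ∑ i ∈ Sᶜ, av (fun z => av (D i (res S z f)) ^ 2) := by
                  refine Finset.sum_congr rfl fun i hi => ?_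
                  rw [hQ]
                  simp only
                  rw [Lib_helper90.QPc.H83.step_mean f (Finset.mem_compl.1 hi)]
                  ring
              _ ≤ ∑ i, av (fun z => av (D i (res S z f)) ^ 2) :=
                  Finset.sum_le_sum_of_subset_of_nonneg (Finset.subset_univ _)
                    fun i _ _ => av_nonneg fun z => sq_nonneg _
              _ = av (fun z => ∑ i, av (D i (res S z f)) ^ 2) := by rw [av_sum]
              _ ≤ av (fun z => 4 * (d : ℝ) ^ 2 * Real.sqrt k + 4 * (d : ℝ) ^ 2 * k ^ (-2 : ℝ) *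
                    ∑ j, inf (res S z f) j ^ (1 + α)) := by
                  refine av_mono fun z => ?_
                  have := sum_sq_mean_le (hsum S z) hα hα1 hk hk1
                  linarith [this]
              _ = _ := by rw [av_add, av_const, av_mul_left]
        _ = 4 * (d : ℝ) ^ 2 * Real.sqrt k + 4 * (d : ℝ) ^ 2 * k ^ (-2 : ℝ) *
              rs ρ (fun S => av (fun z => ∑ j, inf (res S z f) j ^ (1 + α))) := by
            rw [rs_add, rs_const, rs_mul_left]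
        _ ≤ 4 * (d : ℝ) ^ 2 * Real.sqrt k + 4 * (d : ℝ) ^ 2 * k ^ (-2 : ℝ) * M := by
            have := hM ρ hρ
            have h5 : 0 ≤ 4 * (d : ℝ) ^ 2 * k ^ (-2 : ℝ) := by positivity
            have := mul_le_mul_of_nonneg_left this h5
            linarith
        _ = Bd := by rw [hBd]; ring
    have h4 : 1 / (2 * (d : ℝ)) ≤ 1 - ρ := by
      have := hρ.2
      rw [hρ0] at this
      linarith
    by_contra hcon
    push Not at hcon
    have h5 : 0 < F' := lt_of_le_of_lt (by positivity) hcon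
    have h6 : 1 / (2 * (d : ℝ)) * F' ≤ (1 - ρ) * F' := mul_le_mul_of_nonneg_right h4 h5.le
    have h7 : 1 / (2 * (d : ℝ)) * (2 * d * Bd) < 1 / (2 * (d : ℝ)) * F' :=
      mul_lt_mul_of_pos_left hcon hinv0
    have h8 : 1 / (2 * (d : ℝ)) * (2 * d * Bd) = Bd := by field_simp
    linarith
  -- mean value
  have hmv : rs ρ0 Q - rs 0 Q ≤ 2 * d * Bd * (ρ0 - 0) := by
    have hc : ContinuousOn (fun ρ => rs ρ Q) (Set.Icc (0 : ℝ) ρ0) := fun ρ hρ => by
      obtain ⟨F', h1, _⟩ := hder ρ hρ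
      exact h1.continuousAt.continuousWithinAt
    have hd' : DifferentiableOn ℝ (fun ρ => rs ρ Q) (interior (Set.Icc (0 : ℝ) ρ0)) :=
      fun ρ hρ => by
        obtain ⟨F', h1, _⟩ := hder ρ (interior_subset hρ)
        exact h1.differentiableAt.differentiableWithinAt
    refine Convex.image_sub_le_mul_sub_of_deriv_le (convex_Icc (0 : ℝ) ρ0) hc hd' ?_ 0
      ⟨le_rfl, hρ00⟩ ρ0 ⟨hρ00, le_rfl⟩ hρ00
    intro ρ hρ
    obtain ⟨F', h1, h2⟩ := hder ρ (interior_subset hρ)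
    rw [h1.deriv]; exact h2
  have hmv2 : rs ρ0 Q - rs 0 Q ≤ 2 * d * Bd := by
    refine hmv.trans ?_
    have : 2 * (d : ℝ) * Bd * (ρ0 - 0) ≤ 2 * (d : ℝ) * Bd * 1 :=
      mul_le_mul_of_nonneg_left (by linarith) (by positivity)
    linarith
  have hfour : ∀ ρ, rs ρ Q = ∑ S : Finset I, ρ ^ S.card * coef f S ^ 2 :=
    fun ρ => Lib_helper90.QPc.H83.rs_mean_sq f ρ
  have hpar : av (fun x => f x ^ 2) = ∑ S : Finset I, coef f S ^ 2 := (parseval_sq f).symm
  have hemp : av f = coef f ∅ := (coef_empty f).symm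
  have hpow : (1 : ℝ) / 2 ≤ ρ0 ^ d := by
    have h1 := one_add_mul_le_pow (a := -(1 / (2 * (d : ℝ)))) (by linarith) d
    have h2 : 1 + (d : ℝ) * -(1 / (2 * (d : ℝ))) = 1 / 2 := by field_simp; ring
    rw [h2] at h1
    rw [hρ0]
    calc (1 : ℝ) / 2 ≤ (1 + -(1 / (2 * (d : ℝ)))) ^ d := h1
      _ = _ := by ring
  have hlow : 1 / 2 * (av (fun x => f x ^ 2) - av f ^ 2) ≤ rs ρ0 Q - rs 0 Q := by
    rw [hfour, hfour, hpar, hemp, ← Finset.sum_sub_distrib]
    have h0 : ∀ g : Finset I → ℝ, ∑ S, g S = g ∅ + ∑ S ∈ univ.erase ∅, g S := fun g =>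
      (Finset.add_sum_erase _ _ (Finset.mem_univ _)).symm
    rw [h0, h0]
    simp only [Finset.card_empty, pow_zero]
    have h1 : ∀ S ∈ univ.erase (∅ : Finset I), 1 / 2 * coef f S ^ 2 ≤
        ρ0 ^ S.card * coef f S ^ 2 - 0 ^ S.card * coef f S ^ 2 := by
      intro S hS
      have hS' : S.card ≠ 0 := by
        rw [Finset.mem_erase] at hS
        exact fun h => hS.1 (Finset.card_eq_zero.1 h)
      rw [zero_pow hS', zero_mul, sub_zero]
      rcases le_or_gt S.card d with h | h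
      · apply mul_le_mul_of_nonneg_right _ (sq_nonneg _)
        exact hpow.trans (pow_le_pow_of_le_one hρ00 hρ01.le h)
      · rw [hd S h]; simp
    have h2 := Finset.sum_le_sum h1
    rw [← Finset.mul_sum] at h2
    linarith
  calc av (fun x => f x ^ 2) - av f ^ 2 ≤ 2 * (2 * d * Bd) := by linarith
    _ = _ := by rw [hBd]; ring

end Pool.Agent.Lib_helper90.QPc.H8
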